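import Pool.Agent.N426.FP.Te

/-!
# Joint ergodicity of squared integer parts of fractional powers: exponents below one

For every number of functions, all distinct exponents in the open unit interval and arbitrary
totally ergodic measure-preserving maps (which need not commute) the averages converge in mean to
the product of the integrals.

By helper426.
-/

set_option autoImplicit false

namespace Pool.Agent.Results.MP_ce5406_an.ExponentsBelowOne

open Pool.Agent.N426.FP Finset Filter Topology MeasureTheory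

theorem result :
    ∀ (k : ℕ) (c : Fin k → ℝ), Function.Injective c → (∀ i, 0 < c i ∧ c i < 1) →
      ∀ (X : Type) [MeasurableSpace X] (μ : MeasureTheory.Measure X)
        [MeasureTheory.IsProbabilityMeasure μ] (T : Fin k → X → X),
        (∀ i, MeasureTheory.MeasurePreserving (T i) μ μ) →
        (∀ i, ∀ n : ℕ, 1 ≤ n → Ergodic ((T i)^[n]) μ) →
        ∀ f : Fin k → X → ℝ, (∀ i, MeasureTheory.MemLp (f i) ⊤ μ) →
          Filter.Tendsto
            (fun N : ℕ => ∫ x, ((1 / (N : ℝ)) * ∑ n ∈ Finset.Icc 1 N,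
                ∏ i, f i ((T i)^[⌊(n : ℝ) ^ (c i)⌋₊ ^ 2] x)
                - ∏ i, ∫ y, f i y ∂μ) ^ 2 ∂μ)
            Filter.atTop (𝓝 0) := by
  intro k c hinj hc X _ μ _ T hT he f hf
  choose g hg using fun i => exists_rep μ (f i) (hf i)
  refine (te_main μ c hinj hc T hT he g).congr fun N => ?_
  refine integral_congr_ae ?_
  have h1 : ∀ᵐ x ∂μ, ∀ n : ℕ, ∀ i, f i ((T i)^[⌊(n : ℝ) ^ (c i)⌋₊ ^ 2] x) =
      (g i : X → ℝ) ((T i)^[⌊(n : ℝ) ^ (c i)⌋₊ ^ 2] x) := by
    rw [ae_all_iff]
    intro n
    rw [ae_all_iff]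
    intro i
    exact ((hT i).iterate _).quasiMeasurePreserving.ae_eq_comp (hg i)
  have h2 : ∀ i, ∫ y, f i y ∂μ = ∫ y, (g i : X → ℝ) y ∂μ := fun i => integral_congr_ae (hg i)
  filter_upwards [h1] with x hx
  simp only [hx, h2]

end Pool.Agent.Results.MP_ce5406_an.ExponentsBelowOne
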